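import Pool.Agent.H77.PUC.StmtsE

/-!
# Modules ITG and SMO: integrality and smooth reduction on the curve
-/

universe u

namespace PUC

section basic

variable {K : Type u} [NontriviallyNormedField K] [IsUltrametricDist K]

theorem ITG_quad (b c y : K) (hb : ‖b‖ ≤ 1) (hc : ‖c‖ ≤ 1) (h : y ^ 2 + b * y = c) : ‖y‖ ≤ 1 := by
  by_contra hy
  rw [not_le] at hy
  have h1 : y ^ 2 = c + -(b * y) := by rw [← h]; ring
  have h2 : ‖y‖ ^ 2 ≤ max ‖c‖ ‖b * y‖ := by
    rw [← norm_pow, h1]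
    refine (IsUltrametricDist.norm_add_le_max _ _).trans ?_
    rw [norm_neg]
  have h3 : max ‖c‖ ‖b * y‖ ≤ ‖y‖ := by
    apply max_le (hc.trans hy.le)
    rw [norm_mul]
    exact mul_le_of_le_one_left (norm_nonneg _) hb
  have h4 : ‖y‖ ^ 2 ≤ ‖y‖ := h2.trans h3
  nlinarith

/-- `‖a + b‖ = 1` if `‖a‖ < 1` and `‖b‖ = 1` -/
theorem SMO_add {a b : K} (ha : ‖a‖ < 1) (hb : ‖b‖ = 1) : ‖a + b‖ = 1 := by
  have h := IsUltrametricDist.norm_add_eq_max_of_norm_ne_norm (x := a) (y := b) (by rw [hb]; exact ha.ne)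
  rw [h, hb]
  exact max_eq_right ha.le

theorem SMO_add_lt {a b : K} (ha : ‖a‖ < 1) (hb : ‖b‖ < 1) : ‖a + b‖ < 1 :=
  (IsUltrametricDist.norm_add_le_max _ _).trans_lt (max_lt ha hb)

theorem SMO_add_le {a b : K} (ha : ‖a‖ ≤ 1) (hb : ‖b‖ ≤ 1) : ‖a + b‖ ≤ 1 :=
  (IsUltrametricDist.norm_add_le_max _ _).trans (max_le ha hb)

theorem SMO_mul_le {a b : K} (ha : ‖a‖ ≤ 1) (hb : ‖b‖ ≤ 1) : ‖a * b‖ ≤ 1 := by
  rw [norm_mul]; exact mul_le_one₀ ha (norm_nonneg _) hb

theorem SMO_mul_lt {a b : K} (ha : ‖a‖ ≤ 1) (hb : ‖b‖ < 1) : ‖a * b‖ < 1 := by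
  rw [norm_mul]
  calc ‖a‖ * ‖b‖ ≤ 1 * ‖b‖ := by gcongr
    _ < 1 := by rwa [one_mul]

theorem SMO_mul_lt' {a b : K} (ha : ‖a‖ < 1) (hb : ‖b‖ ≤ 1) : ‖a * b‖ < 1 := by
  rw [mul_comm]; exact SMO_mul_lt hb ha

theorem SMO_pow_le {a : K} (ha : ‖a‖ ≤ 1) (n : ℕ) : ‖a ^ n‖ ≤ 1 := by
  rw [norm_pow]; exact pow_le_one₀ (norm_nonneg _) ha

theorem SMO_nat (n : ℕ) : ‖(n : K)‖ ≤ 1 := IsUltrametricDist.norm_natCast_le_one K n

theorem SMO_lin (g : ℕ) : ‖(2 * g + 1 : K)‖ ≤ 1 := by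
  have := SMO_nat (K := K) (2 * g + 1)
  push_cast at this
  exact this

theorem SMO_two : ‖(2 : K)‖ ≤ 1 := by
  have := SMO_nat (K := K) 2
  push_cast at this
  exact this

/-- integers prime to `p` have norm one -/
theorem SMO_prime {p n : ℕ} (hp : p.Prime) (hpn : ‖(p : K)‖ < 1) (h : ¬ p ∣ n) : ‖(n : K)‖ = 1 := by
  have hc : Nat.Coprime p n := (Nat.Prime.coprime_iff_not_dvd hp).2 h
  have hb := Nat.gcd_eq_gcd_ab p n
  rw [hc] at hb
  have hb' : (1 : K) = (p : K) * ((p.gcdA n : ℤ) : K) + (n : K) * ((p.gcdB n : ℤ) : K) := by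
    have := congrArg (fun z : ℤ => (z : K)) hb
    push_cast at this
    exact this
  apply le_antisymm (SMO_nat n)
  by_contra hlt
  rw [not_le] at hlt
  have h1 : ‖(1 : K)‖ < 1 := by
    rw [hb']
    apply SMO_add_lt
    · exact SMO_mul_lt' hpn (IsUltrametricDist.norm_intCast_le_one K _)
    · exact SMO_mul_lt' hlt (IsUltrametricDist.norm_intCast_le_one K _)
  rw [norm_one] at h1
  exact lt_irrefl _ h1

theorem SMO_dvd {p n : ℕ} (hpn : ‖(p : K)‖ < 1) (h : p ∣ n) : ‖(n : K)‖ < 1 := by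
  obtain ⟨m, rfl⟩ := h
  push_cast
  exact SMO_mul_lt' hpn (SMO_nat m)

end basic

theorem sItg : SItg.{u} := by
  intro K _ _ g s hs
  refine ⟨?_, ?_⟩
  · intro x y hx h
    apply ITG_quad 1 (x ^ (2 * g + 1) + s * x) y (by simp)
    · exact SMO_add_le (SMO_pow_le hx _) (SMO_mul_le hs hx)
    · rw [one_mul]; exact h
  · intro u w hu h
    apply ITG_quad (u ^ (g + 1)) (u + s * u ^ (2 * g + 1)) w (SMO_pow_le hu _)
    · exact SMO_add_le hu (SMO_mul_le hs (SMO_pow_le hu _))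
    · exact h

theorem SMO_zero {K : Type u} [NontriviallyNormedField K] [IsUltrametricDist K] {p g : ℕ} {s : K}
    (hp : p.Prime) (hpn : ‖(p : K)‖ < 1) (hg : 1 ≤ g) (ha : Adm p g s) : Smooth0 g s := by
  intro a b hal hbl hab
  rcases ha with ⟨h1, h2⟩ | ⟨h1, h2⟩
  · by_contra hcon
    rw [not_or] at hcon
    obtain ⟨hc1, hc2⟩ := hcon
    have hb1 : ‖2 * b + 1‖ ≤ 1 := SMO_add_le (SMO_mul_le SMO_two hbl) (by simp)
    have hb2 : ‖2 * b + 1‖ < 1 := lt_of_le_of_ne hb1 hc1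
    have ha1 : ‖(2 * g + 1 : K) * a ^ (2 * g) + s‖ ≤ 1 :=
      SMO_add_le (SMO_mul_le (SMO_lin g) (SMO_pow_le hal _)) h2.le
    have ha2 : ‖(2 * g + 1 : K) * a ^ (2 * g) + s‖ < 1 := lt_of_le_of_ne ha1 hc2
    have ha3 : ‖(2 * g + 1 : K) * a ^ (2 * g)‖ < 1 := by
      have e : (2 * g + 1 : K) * a ^ (2 * g) = ((2 * g + 1 : K) * a ^ (2 * g) + s) + -s := by ring
      rw [e]
      exact SMO_add_lt ha2 (by rwa [norm_neg])
    have hn : ‖(2 * g + 1 : K)‖ = 1 := by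
      have := SMO_prime (K := K) hp hpn h1
      push_cast at this
      exact this
    rw [norm_mul, hn, one_mul, norm_pow] at ha3
    have ha4 : ‖a‖ < 1 := by
      by_contra hna
      rw [not_lt] at hna
      exact absurd ha3 (not_lt.2 (one_le_pow₀ hna))
    have hc : ‖b ^ 2 + b‖ < 1 := by
      rw [hab]
      apply SMO_add_lt
      · rw [pow_succ]
        exact SMO_mul_lt (SMO_pow_le hal _) ha4
      · exact SMO_mul_lt h2.le ha4
    have h5 : ‖(2 * b + 1) ^ 2‖ = 1 := by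
      have e : (2 * b + 1) ^ 2 = 2 * 2 * (b ^ 2 + b) + 1 := by ring
      rw [e]
      exact SMO_add (SMO_mul_lt (SMO_mul_le SMO_two SMO_two) hc) norm_one
    rw [norm_pow] at h5
    have h6 : ‖2 * b + 1‖ ^ 2 < 1 := pow_lt_one₀ (norm_nonneg _) hb2 (by norm_num)
    exact absurd h5 h6.ne
  · right
    have hn : ‖(2 * g + 1 : K)‖ < 1 := by
      have := SMO_dvd (K := K) hpn h1
      push_cast at this
      exact this
    have e : (2 * g + 1 : K) * a ^ (2 * g) + s = ((2 * g + 1 : K) * a ^ (2 * g) + (s - 1)) + 1 := by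
      ring
    rw [e]
    exact SMO_add (SMO_add_lt (SMO_mul_lt' hn (SMO_pow_le hal _)) h2) norm_one

theorem sSmo : SSmo.{u} := by
  intro K _ _ p g s hp hpn hg ha
  have hs : ‖s‖ ≤ 1 := by
    rcases ha with ⟨h1, h2⟩ | ⟨h1, h2⟩
    · exact h2.le
    · have e : s = (s - 1) + 1 := by ring
      rw [e]
      exact SMO_add_le h2.le (by simp)
  have h0 : Smooth0 g s := SMO_zero hp hpn hg ha
  refine ⟨hs, h0, ?_⟩
  intro u w hu hw h
  have hg1 : ‖(g + 1 : K)‖ ≤ 1 := by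
    have := SMO_nat (K := K) (g + 1)
    push_cast at this
    exact this
  rcases lt_or_eq_of_le hu with hu1 | hu1
  · right
    have e : 1 + (2 * g + 1 : K) * s * u ^ (2 * g) - (g + 1 : K) * u ^ g * w =
        ((2 * g + 1 : K) * s * u ^ (2 * g) + -((g + 1 : K) * u ^ g * w)) + 1 := by ring
    rw [e]
    apply SMO_add _ norm_one
    have hp1 : ∀ n : ℕ, n ≠ 0 → ‖u ^ n‖ < 1 := by
      intro n hn
      rw [norm_pow]
      exact pow_lt_one₀ (norm_nonneg _) hu1 hn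
    apply SMO_add_lt
    · exact SMO_mul_lt (SMO_mul_le (SMO_lin g) hs) (hp1 _ (by omega))
    · rw [norm_neg]
      exact SMO_mul_lt' (SMO_mul_lt hg1 (hp1 _ (by omega))) hw
  · have hu0 : u ≠ 0 := by
      rintro rfl
      rw [norm_zero] at hu1
      exact zero_ne_one hu1
    obtain ⟨x, hx⟩ : ∃ x : K, x = u⁻¹ := ⟨_, rfl⟩
    obtain ⟨y, hy⟩ : ∃ y : K, y = w / u ^ (g + 1) := ⟨_, rfl⟩
    have hux : u * x = 1 := by rw [hx]; exact mul_inv_cancel₀ hu0
    have hwy : w = y * u ^ (g + 1) := by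
      rw [hy]
      field_simp
    have hxn : ‖x‖ = 1 := by rw [hx, norm_inv, hu1, inv_one]
    have hun : ∀ n : ℕ, ‖u ^ n‖ = 1 := by intro n; rw [norm_pow, hu1, one_pow]
    have hyn : ‖y‖ ≤ 1 := by rw [hy, norm_div, hun, div_one]; exact hw
    have hxy : y ^ 2 + y = x ^ (2 * g + 1) + s * x := by
      have h2 : u ^ (2 * g + 2) ≠ 0 := pow_ne_zero _ hu0
      apply mul_left_cancel₀ h2
      have e1 : u ^ (2 * g + 2) * (y ^ 2 + y) = w ^ 2 + u ^ (g + 1) * w := by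
        rw [hwy]; ring
      have e2 : u ^ (2 * g + 2) * (x ^ (2 * g + 1) + s * x) =
          (u * x) ^ (2 * g + 1) * u + s * (u * x) * u ^ (2 * g + 1) := by
        rw [mul_pow]; ring
      rw [e1, e2, hux, h]
      ring
    rcases h0 x y hxn.le hyn hxy with h1 | h1
    · left
      have e : 2 * w + u ^ (g + 1) = u ^ (g + 1) * (2 * y + 1) := by rw [hwy]; ring
      rw [e, norm_mul, hun, h1, one_mul]
    · by_cases h2 : ‖2 * w + u ^ (g + 1)‖ = 1
      · exact Or.inl h2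
      right
      have h3 : ‖2 * y + 1‖ < 1 := by
        have e : 2 * w + u ^ (g + 1) = u ^ (g + 1) * (2 * y + 1) := by rw [hwy]; ring
        rw [e, norm_mul, hun, one_mul] at h2
        exact lt_of_le_of_ne (SMO_add_le (SMO_mul_le SMO_two hyn) (by simp)) h2
      have key : x ^ (2 * g + 1) * (1 + (2 * g + 1 : K) * s * u ^ (2 * g) - (g + 1 : K) * u ^ g * w) =
          (g + 1 : K) * y * (2 * y + 1) + -(x * ((2 * g + 1 : K) * x ^ (2 * g) + s)) := by
        have e1 : x ^ (2 * g + 1) * u ^ (2 * g) = x := by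
          have : x ^ (2 * g + 1) * u ^ (2 * g) = (u * x) ^ (2 * g) * x := by rw [mul_pow]; ring
          rw [this, hux, one_pow, one_mul]
        have e2 : x ^ (2 * g + 1) * (u ^ g * w) = y := by
          rw [hwy]
          have : x ^ (2 * g + 1) * (u ^ g * (y * u ^ (g + 1))) = (u * x) ^ (2 * g + 1) * y := by
            rw [mul_pow]; ring
          rw [this, hux, one_pow, one_mul]
        have e3 : x ^ (2 * g + 1) * (1 + (2 * g + 1 : K) * s * u ^ (2 * g) -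
            (g + 1 : K) * u ^ g * w) = x ^ (2 * g + 1) + (2 * g + 1 : K) * s *
            (x ^ (2 * g + 1) * u ^ (2 * g)) - (g + 1 : K) * (x ^ (2 * g + 1) * (u ^ g * w)) := by
          ring
        rw [e3, e1, e2]
        have e4 : x ^ (2 * g + 1) = y ^ 2 + y - s * x := by rw [hxy]; ring
        have e5 : x * ((2 * g + 1 : K) * x ^ (2 * g) + s) =
          (2 * g + 1 : K) * x ^ (2 * g + 1) + s * x := by ring
        rw [e5, e4]
        ring
      have h4 : ‖x ^ (2 * g + 1) * (1 + (2 * g + 1 : K) * s * u ^ (2 * g) -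
          (g + 1 : K) * u ^ g * w)‖ = 1 := by
        rw [key]
        apply SMO_add
        · exact SMO_mul_lt (SMO_mul_le hg1 hyn) h3
        · rw [norm_neg, norm_mul, hxn, h1, one_mul]
      rw [norm_mul, norm_pow, hxn, one_pow, one_mul] at h4
      exact h4

end PUC
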