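import Pool.Agent.H77.PUC.StmtsE

/-!
# Module CRD: coordinates of places
-/

universe u

namespace PUC

theorem CRD_int {K E : Type u} [Field K] [Field E] [Algebra K E] (Q : Place K E) (b c y : E)
    (hb : b ∈ Q.ring) (hc : c ∈ Q.ring) (h : y ^ 2 + b * y = c) : y ∈ Q.ring := by
  by_contra hy
  have h1 : y⁻¹ ∈ Q.ring := Q.inv_mem_of_not_mem hy
  have hy0 : y ≠ 0 := by
    rintro rfl
    exact hy Q.ring.zero_mem
  apply hy
  have e : y = c * y⁻¹ - b := by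
    rw [← h]
    field_simp
    ring
  rw [e]
  exact Q.ring.sub_mem (Q.ring.mul_mem _ _ hc h1) hb

theorem CRD_main {K E : Type u} [Field K] [Field E] [Algebra K E] (g : ℕ) (s : K) (x y : E)
    (hg : 1 ≤ g) (hx0 : x ≠ 0) (h : y ^ 2 + y = x ^ (2 * g + 1) + algebraMap K E s * x)
    (Q : Place K E) :
  (x ∈ Q.ring → y ∈ Q.ring ∧ Q.val y ^ 2 + Q.val y = Q.val x ^ (2 * g + 1) + s * Q.val x) ∧
  (x⁻¹ ∈ Q.ring → y / x ^ (g + 1) ∈ Q.ring ∧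
    Q.val (y / x ^ (g + 1)) ^ 2 + Q.val x⁻¹ ^ (g + 1) * Q.val (y / x ^ (g + 1)) =
      Q.val x⁻¹ + s * Q.val x⁻¹ ^ (2 * g + 1)) ∧
  (x ∈ Q.ring → x⁻¹ ∈ Q.ring → Q.val x ≠ 0 ∧ Q.val x⁻¹ = (Q.val x)⁻¹ ∧
    Q.val (y / x ^ (g + 1)) = Q.val y / Q.val x ^ (g + 1)) ∧
  (x ∉ Q.ring → y ∉ Q.ring) := by
  have h1 : x ∈ Q.ring → y ∈ Q.ring := by
    intro hx
    apply CRD_int Q 1 (x ^ (2 * g + 1) + algebraMap K E s * x) y Q.ring.one_mem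
    · exact Q.ring.add_mem _ _ (Q.pow_mem hx _) (Q.ring.mul_mem _ _ (Q.alg_mem _) hx)
    · rw [one_mul]; exact h
  have hw : (y / x ^ (g + 1)) ^ 2 + x⁻¹ ^ (g + 1) * (y / x ^ (g + 1)) =
      x⁻¹ + algebraMap K E s * x⁻¹ ^ (2 * g + 1) := by
    have e1 : (y / x ^ (g + 1)) ^ 2 + x⁻¹ ^ (g + 1) * (y / x ^ (g + 1)) =
        (y ^ 2 + y) * x⁻¹ ^ (2 * g + 2) := by
      have e0 : y / x ^ (g + 1) = y * x⁻¹ ^ (g + 1) := by rw [inv_pow, div_eq_mul_inv]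
      rw [e0]
      ring
    have e2 : x * x⁻¹ = 1 := mul_inv_cancel₀ hx0
    have e3 : (x ^ (2 * g + 1) + algebraMap K E s * x) * x⁻¹ ^ (2 * g + 2) =
        (x * x⁻¹) ^ (2 * g + 1) * x⁻¹ + algebraMap K E s * (x * x⁻¹) * x⁻¹ ^ (2 * g + 1) := by
      rw [mul_pow]; ring
    rw [e1, h, e3, e2]
    ring
  have h2 : x⁻¹ ∈ Q.ring → y / x ^ (g + 1) ∈ Q.ring := by
    intro hx
    exact CRD_int Q (x⁻¹ ^ (g + 1)) (x⁻¹ + algebraMap K E s * x⁻¹ ^ (2 * g + 1)) _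
      (Q.pow_mem hx _)
      (Q.ring.add_mem _ _ hx (Q.ring.mul_mem _ _ (Q.alg_mem _) (Q.pow_mem hx _))) hw
  refine ⟨?_, ?_, ?_, ?_⟩
  · intro hx
    have hy := h1 hx
    refine ⟨hy, ?_⟩
    have h3 := congrArg Q.val h
    rw [Q.val_add (Q.pow_mem hy 2) hy, Q.val_pow hy, Q.val_add (Q.pow_mem hx _)
      (Q.ring.mul_mem _ _ (Q.alg_mem _) hx), Q.val_pow hx, Q.val_mul (Q.alg_mem _) hx,
      Q.val_algebraMap] at h3
    exact h3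
  · intro hx
    have hy := h2 hx
    refine ⟨hy, ?_⟩
    have h3 := congrArg Q.val hw
    rw [Q.val_add (Q.pow_mem hy 2) (Q.ring.mul_mem _ _ (Q.pow_mem hx _) hy), Q.val_pow hy,
      Q.val_mul (Q.pow_mem hx _) hy, Q.val_pow hx, Q.val_add hx
      (Q.ring.mul_mem _ _ (Q.alg_mem _) (Q.pow_mem hx _)), Q.val_mul (Q.alg_mem _) (Q.pow_mem hx _),
      Q.val_pow hx, Q.val_algebraMap] at h3
    exact h3
  · intro hx hxi
    have hv : Q.val x ≠ 0 := by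
      intro h0
      exact Q.inv_not_mem hx h0 hx0 hxi
    refine ⟨hv, Q.val_inv hx hv, ?_⟩
    have e : y / x ^ (g + 1) = y * x⁻¹ ^ (g + 1) := by
      rw [inv_pow, div_eq_mul_inv]
    rw [e, Q.val_mul (h1 hx) (Q.pow_mem hxi _), Q.val_pow hxi, Q.val_inv hx hv, inv_pow,
      div_eq_mul_inv]
  · intro hx hy
    have hxi : x⁻¹ ∈ Q.ring := Q.inv_mem_of_not_mem hx
    have hxv : Q.val x⁻¹ = 0 := Q.val_inv_of_not_mem hx
    have e : (y ^ 2 + y) * x⁻¹ ^ (2 * g + 1) = 1 + algebraMap K E s * x⁻¹ ^ (2 * g) := by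
      have e2 : x * x⁻¹ = 1 := mul_inv_cancel₀ hx0
      have e3 : (x ^ (2 * g + 1) + algebraMap K E s * x) * x⁻¹ ^ (2 * g + 1) =
        (x * x⁻¹) ^ (2 * g + 1) + algebraMap K E s * (x * x⁻¹) * x⁻¹ ^ (2 * g) := by
        rw [mul_pow]; ring
      rw [h, e3, e2]
      ring
    have h3 := congrArg Q.val e
    have hy2 : y ^ 2 + y ∈ Q.ring := Q.ring.add_mem _ _ (Q.pow_mem hy 2) hy
    rw [Q.val_mul hy2 (Q.pow_mem hxi _), Q.val_pow hxi, hxv,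
      Q.val_add Q.ring.one_mem (Q.ring.mul_mem _ _ (Q.alg_mem _) (Q.pow_mem hxi _)), Q.val_one,
      Q.val_mul (Q.alg_mem _) (Q.pow_mem hxi _), Q.val_pow hxi, hxv,
      zero_pow (by omega), zero_pow (by omega)] at h3
    simp at h3

end PUC
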